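import Pool.Agent.Helper185.DelUltra

/-!
# Under the continuum hypothesis there are infinitely many pairwise non-isomorphic selective
ultrafilters
-/

set_option autoImplicit false

namespace Run7.h488.Sel

open Set Filter

/-- A nonprincipal ultrafilter on `ℕ`. -/
def Free (V : Ultrafilter ℕ) : Prop := ∀ n : ℕ, ({n} : Set ℕ) ∉ V

/-- A p-point: each sequence of members has a pseudo-intersection which is a member. -/
def PPoint (V : Ultrafilter ℕ) : Prop :=
  Free V ∧ ∀ A : ℕ → Set ℕ, (∀ n, A n ∈ V) → ∃ X ∈ V, ∀ n, (X \ A n).Finite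

/-- A q-point: each finite-to-one function is injective on a member. -/
def QPoint (V : Ultrafilter ℕ) : Prop :=
  Free V ∧ ∀ f : ℕ → ℕ, (∀ m : ℕ, {n : ℕ | f n = m}.Finite) → ∃ X ∈ V, Set.InjOn f X

/-- A selective ultrafilter: each function is constant or injective on a member. -/
def Selective (V : Ultrafilter ℕ) : Prop :=
  Free V ∧ ∀ f : ℕ → ℕ, (∃ X ∈ V, ∃ c : ℕ, ∀ x ∈ X, f x = c) ∨ ∃ X ∈ V, Set.InjOn f X

theorem Free.infinite {V : Ultrafilter ℕ} (h : Free V) {X : Set ℕ} (hX : X ∈ V) : X.Infinite := by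
  intro hfin
  have h1 := (Ultrafilter.finite_biUnion_mem_iff (f := V) hfin (s := fun n => ({n} : Set ℕ))).1
    (by simpa using hX)
  obtain ⟨n, -, hn⟩ := h1
  exact h n hn

theorem Free.of_diff {V : Ultrafilter ℕ} (h : Free V) {X Y : Set ℕ} (hX : X ∈ V)
    (hXY : (X \ Y).Finite) : Y ∈ V := by
  by_contra hY
  have h1 : X \ Y ∈ V := inter_mem hX (Ultrafilter.compl_mem_iff_notMem.2 hY)
  exact h.infinite h1 hXY

/-- Each function is constant or injective on some infinite subset of an infinite set. -/
theorem exists_const_or_inj (f : ℕ → ℕ) {A : Set ℕ} (hA : A.Infinite) :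
    ∃ B ⊆ A, B.Infinite ∧ ((∃ c, ∀ x ∈ B, f x = c) ∨ Set.InjOn f B) := by
  classical
  by_cases h : ∃ c, (A ∩ f ⁻¹' {c}).Infinite
  · obtain ⟨c, hc⟩ := h
    exact ⟨_, inter_subset_left, hc, Or.inl ⟨c, fun x hx => hx.2⟩⟩
  · push Not at h
    have him : (f '' A).Infinite := by
      intro hfin
      apply hA
      refine (hfin.biUnion (fun c _ => h c)).subset ?_
      intro a ha
      simp only [mem_iUnion]
      exact ⟨f a, mem_image_of_mem f ha, ha, rfl⟩
    obtain ⟨B, hBA, hB⟩ := SurjOn.exists_bijOn_subset (surjOn_image f A)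
    refine ⟨B, hBA, ?_, Or.inr hB.injOn⟩
    intro hfin
    apply him
    rw [← hB.image_eq]
    exact hfin.image f

/-- Separation of two coordinates. -/
theorem exists_separate (f : ℕ → ℕ) {A B : Set ℕ} (hA : A.Infinite) (hB : B.Infinite)
    (hf : (∃ c, ∀ x ∈ A, f x = c) ∨ Set.InjOn f A) :
    ∃ A' ⊆ A, ∃ B' ⊆ B, A'.Infinite ∧ B'.Infinite ∧ ∀ x ∈ A', f x ∉ B' := by
  classical
  rcases hf with ⟨c, hc⟩ | hf
  · refine ⟨A, Subset.rfl, B \ {c}, diff_subset, hA, hB.diff (finite_singleton c), ?_⟩
    intro x hx hx2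
    exact hx2.2 (hc x hx)
  · by_cases h : (A \ f ⁻¹' B).Infinite
    · exact ⟨_, diff_subset, B, Subset.rfl, h, hB, fun x hx => hx.2⟩
    · have h2 : (A ∩ f ⁻¹' B).Infinite := by
        intro h3
        exact hA (((not_infinite.1 h).union h3).subset (fun a ha => by
          by_cases h4 : a ∈ f ⁻¹' B
          · exact Or.inr ⟨ha, h4⟩
          · exact Or.inl ⟨ha, h4⟩))
      -- split the infinite set into two infinite parts
      obtain ⟨g, hg1, hg2⟩ : ∃ g : ℕ → ℕ, StrictMono g ∧ ∀ n, g n ∈ A ∩ f ⁻¹' B :=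
        ⟨Nat.nth (· ∈ A ∩ f ⁻¹' B), Nat.nth_strictMono h2, fun n => Nat.nth_mem_of_infinite h2 n⟩
      refine ⟨range (fun n => g (2 * n)), ?_, (fun n => f (g n)) '' {n | n % 2 = 1}, ?_, ?_, ?_, ?_⟩
      · rintro _ ⟨n, rfl⟩
        exact (hg2 _).1
      · rintro _ ⟨n, -, rfl⟩
        exact (hg2 n).2
      · refine infinite_range_of_injective (fun a b hab => ?_)
        have := hg1.injective hab
        omega
      · refine Infinite.image ?_ ?_
        · intro a _ b _ hab
          exact hg1.injective (hf (hg2 a).1 (hg2 b).1 hab)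
        · refine infinite_of_injective_forall_mem (f := fun n : ℕ => 2 * n + 1) (fun a b hab => ?_) ?_
          · simp only at hab
            omega
          · intro n
            simp only [mem_setOf_eq]
            omega
      · rintro _ ⟨n, rfl⟩ ⟨m, hm, hmn⟩
        have h5 := hg1.injective (hf (hg2 m).1 (hg2 (2 * n)).1 hmn)
        simp only [mem_setOf_eq] at hm
        omega

/-- The families of infinite sets. -/
def Fam : Type := {A : ℕ → Set ℕ // ∀ n, (A n).Infinite}

/-- Under the continuum hypothesis there is a sequence of pairwise non-isomorphic selective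
ultrafilters; no one is the image of another one. -/
theorem exists_selectives (hCH : Cardinal.aleph 1 = Cardinal.continuum.{0}) :
    ∃ e : ℕ → Ultrafilter ℕ, (∀ n, PPoint (e n) ∧ Selective (e n)) ∧
      ∀ n m, n ≠ m → ∀ f : ℕ → ℕ, (e n).map f ≠ e m := by
  classical
  have hcard : Cardinal.mk ((ℕ → ℕ) × ℕ × ℕ) ≤ Cardinal.continuum.{0} := by
    simp [Cardinal.mk_prod, Cardinal.continuum_mul_aleph0]
  obtain ⟨I, _, _, hI, hunc, e, he⟩ :=
    Pool.Agent.Helper185.Del.exists_enum (T := (ℕ → ℕ) × ℕ × ℕ) hcard hCH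
  have hne : Nonempty I := by
    obtain ⟨i, -⟩ := he (fun _ => 0, 0, 0)
    exact ⟨i⟩
  obtain ⟨x, hx⟩ := Pool.Agent.Helper185.Del.exists_rec (I := I) (Y := ℕ → Set ℕ)
    (fun i g y => (∀ n, (y n).Infinite) ∧ (∀ j hj n, (y n \ g j hj n).Finite) ∧
      (∀ n, (∃ c, ∀ x ∈ y n, (e i).1 x = c) ∨ Set.InjOn (e i).1 (y n)) ∧
      ((e i).2.1 ≠ (e i).2.2 → ∀ x ∈ y (e i).2.1, (e i).1 x ∉ y (e i).2.2)) (by
      intro i g hg
      have h1 : ∀ n, ∃ y : Set ℕ, y.Infinite ∧ ∀ j hj, (y \ g j hj n).Finite := fun n =>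
        Pool.Agent.Helper185.Del.exists_pseudo_tower (hI i) (g := fun j hj => g j hj n)
          (fun j hj => (hg j hj).1 n)
          (fun j hj k hk hjk => (hg k hk).2.1 j hjk n)
      choose y hy1 hy2 using h1
      have h2 : ∀ n, ∃ B ⊆ y n, B.Infinite ∧
          ((∃ c, ∀ x ∈ B, (e i).1 x = c) ∨ Set.InjOn (e i).1 B) :=
        fun n => exists_const_or_inj _ (hy1 n)
      choose z hz1 hz2 hz3 using h2
      obtain ⟨A, hA, B, hB, hAi, hBi, hAB⟩ :=
        exists_separate (e i).1 (hz2 (e i).2.1) (hz2 (e i).2.2) (hz3 _)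
      by_cases hnm : (e i).2.1 = (e i).2.2
      · exact ⟨z, hz2, fun j hj n => (hy2 n j hj).subset (diff_subset_diff_left (hz1 n)), hz3,
          fun h => absurd hnm h⟩
      · let w : ℕ → Set ℕ := fun n => if n = (e i).2.1 then A else if n = (e i).2.2 then B else z n
        have hw1 : w (e i).2.1 = A := if_pos rfl
        have hw2 : w (e i).2.2 = B := by
          show (if (e i).2.2 = (e i).2.1 then A else if (e i).2.2 = (e i).2.2 then B else z _) = B
          rw [if_neg (fun h => hnm h.symm), if_pos rfl]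
        have hwz : ∀ n, w n ⊆ z n ∧ (w n).Infinite := by
          intro n
          by_cases hn1 : n = (e i).2.1
          · subst hn1
            rw [hw1]
            exact ⟨hA, hAi⟩
          · by_cases hn2 : n = (e i).2.2
            · subst hn2
              rw [hw2]
              exact ⟨hB, hBi⟩
            · have : w n = z n := by
                simp only [w]
                rw [if_neg hn1, if_neg hn2]
              rw [this]
              exact ⟨Subset.rfl, hz2 n⟩
        refine ⟨w, fun n => (hwz n).2, fun j hj n => (hy2 n j hj).subset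
          (diff_subset_diff_left ((hwz n).1.trans (hz1 n))), fun n => ?_, fun _ => ?_⟩
        · rcases hz3 n with ⟨c, hc⟩ | hc
          · exact Or.inl ⟨c, fun x hx => hc x ((hwz n).1 hx)⟩
          · exact Or.inr (hc.mono (hwz n).1)
        · rw [hw1, hw2]
          exact hAB)
  have hmono : ∀ n i j, i ≤ j → (x j n \ x i n).Finite := by
    intro n i j hij
    rcases hij.lt_or_eq with h | rfl
    · exact (hx j).2.1 i h n
    · simp
  let F : ℕ → Filter ℕ := fun n =>
    { sets := {B | ∃ i, (x i n \ B).Finite}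
      univ_sets := ⟨Classical.arbitrary I, by simp⟩
      sets_of_superset := by
        rintro A B ⟨i, hi⟩ hAB
        exact ⟨i, hi.subset (diff_subset_diff_right hAB)⟩
      inter_sets := by
        rintro A B ⟨i, hi⟩ ⟨j, hj⟩
        refine ⟨max i j, ?_⟩
        refine ((((hmono n i (max i j) (le_max_left _ _)).union hi).union
          ((hmono n j (max i j) (le_max_right _ _)).union hj))).subset ?_
        intro a ha
        by_cases hA : a ∈ A
        · right
          have hB : a ∉ B := fun hB => ha.2 ⟨hA, hB⟩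
          by_cases haj : a ∈ x j n
          · exact Or.inr ⟨haj, hB⟩
          · exact Or.inl ⟨ha.1, haj⟩
        · left
          by_cases hai : a ∈ x i n
          · exact Or.inr ⟨hai, hA⟩
          · exact Or.inl ⟨ha.1, hai⟩ }
  have hF : ∀ n B, B ∈ F n ↔ ∃ i, (x i n \ B).Finite := fun n B => Iff.rfl
  have hcompl : ∀ n s, sᶜ ∉ F n ↔ s ∈ F n := by
    intro n s
    rw [hF, hF]
    constructor
    · intro h
      obtain ⟨i, hi⟩ := he (fun a => if a ∈ s then 1 else 0, 0, 0)
      have h3 := (hx i).2.2.1 n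
      rw [hi] at h3
      simp only at h3
      rcases h3 with ⟨c, hc⟩ | hinj
      · by_cases h0 : ∃ a ∈ x i n, a ∉ s
        · obtain ⟨a, ha, has⟩ := h0
          have hc0 : c = 0 := by rw [← hc a ha, if_neg has]
          exfalso
          apply h
          refine ⟨i, ?_⟩
          have : x i n \ sᶜ = ∅ := by
            ext b
            simp only [mem_diff, mem_compl_iff, not_not, mem_empty_iff_false, iff_false, not_and]
            intro hb hbs
            have := hc b hb
            rw [if_pos hbs, hc0] at this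
            exact one_ne_zero this
          rw [this]
          exact finite_empty
        · push Not at h0
          refine ⟨i, ?_⟩
          rw [diff_eq_empty.2 h0]
          exact finite_empty
      · exfalso
        have h5 : ((fun a => if a ∈ s then 1 else 0 : ℕ → ℕ) '' x i n).Infinite :=
          ((hx i).1 n).image hinj
        apply h5
        refine (Set.toFinite ({0, 1} : Set ℕ)).subset ?_
        rintro _ ⟨a, -, rfl⟩
        simp only
        split_ifs <;> simp
    · rintro ⟨i, hi⟩ ⟨j, hj⟩
      apply (hx (max i j)).1 n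
      refine (((hmono n i (max i j) (le_max_left _ _)).union hi).union
          ((hmono n j (max i j) (le_max_right _ _)).union hj)).subset ?_
      intro a ha
      by_cases hs : a ∈ s
      · right
        by_cases haj : a ∈ x j n
        · exact Or.inr ⟨haj, fun h => h hs⟩
        · exact Or.inl ⟨ha, haj⟩
      · left
        by_cases hai : a ∈ x i n
        · exact Or.inr ⟨hai, hs⟩
        · exact Or.inl ⟨ha, hai⟩
  let U : ℕ → Ultrafilter ℕ := fun n => Ultrafilter.ofComplNotMemIff (F n) (hcompl n)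
  have hU : ∀ n B, B ∈ U n ↔ ∃ i, (x i n \ B).Finite := fun n B => Iff.rfl
  have hxU : ∀ i n, x i n ∈ U n := fun i n => (hU n _).2 ⟨i, by simp⟩
  have hfree : ∀ n, Free (U n) := by
    intro n k hk
    obtain ⟨i, hi⟩ := (hU n _).1 hk
    apply (hx i).1 n
    exact (hi.union (finite_singleton k)).subset (fun a ha => by
      by_cases h : a = k
      · exact Or.inr h
      · exact Or.inl ⟨ha, h⟩)
  refine ⟨U, fun n => ⟨⟨hfree n, ?_⟩, hfree n, ?_⟩, ?_⟩
  · intro A hA
    have hA' : ∀ k, ∃ i, (x i n \ A k).Finite := fun k => (hU n _).1 (hA k)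
    choose j hj using hA'
    have hcount : (⋃ k, Iic (j k)).Countable := by
      refine countable_iUnion (fun k => ?_)
      have : Iic (j k) = insert (j k) (Iio (j k)) := by
        ext a
        simp only [mem_Iic, mem_insert_iff, mem_Iio]
        exact le_iff_eq_or_lt
      rw [this]
      exact (hI _).insert _
    have hex : ∃ k, k ∉ ⋃ k, Iic (j k) := by
      by_contra hcon
      push Not at hcon
      exact hunc (hcount.mono (fun a _ => hcon a))
    obtain ⟨k, hk⟩ := hex
    simp only [mem_iUnion, mem_Iic, not_exists, not_le] at hk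
    refine ⟨x k n, hxU k n, fun m => ?_⟩
    refine ((hmono n (j m) k (hk m).le).union (hj m)).subset ?_
    intro a ha
    by_cases haj : a ∈ x (j m) n
    · exact Or.inr ⟨haj, ha.2⟩
    · exact Or.inl ⟨ha.1, haj⟩
  · intro f
    obtain ⟨i, hi⟩ := he (f, 0, 0)
    have h3 := (hx i).2.2.1 n
    rw [hi] at h3
    simp only at h3
    rcases h3 with h3 | h3
    · exact Or.inl ⟨x i n, hxU i n, h3⟩
    · exact Or.inr ⟨x i n, hxU i n, h3⟩
  · intro n m hnm f hf
    obtain ⟨i, hi⟩ := he (f, n, m)
    have h3 := (hx i).2.2.2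
    rw [hi] at h3
    simp only at h3
    have h4 := h3 hnm
    have h5 : x i m ∈ (U n).map f := by
      rw [hf]
      exact hxU i m
    rw [Ultrafilter.mem_map] at h5
    have h6 : x i n ∩ f ⁻¹' (x i m) ∈ U n := inter_mem (hxU i n) h5
    obtain ⟨a, ha⟩ := Ultrafilter.nonempty_of_mem h6
    exact h4 a ha.1 ha.2

end Run7.h488.Sel
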