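import Pool.Agent.Run7.h488.Sel.Gen

/-!
# A sum of pairwise non-isomorphic selective ultrafilters is a q-point and not selective
-/

set_option autoImplicit false

namespace Run7.h488.Sel

open Set Filter

/-- The `W`-sum of the ultrafilters `Y n`, coded on `ℕ` by pairing. -/
noncomputable def lim (W : Ultrafilter ℕ) (Y : ℕ → Ultrafilter ℕ) : Ultrafilter ℕ :=
  W.bind fun n => (Y n).map (Nat.pair n)

theorem mem_lim {W : Ultrafilter ℕ} {Y : ℕ → Ultrafilter ℕ} {A : Set ℕ} :
    A ∈ lim W Y ↔ {n | {m | Nat.pair n m ∈ A} ∈ Y n} ∈ W := by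
  unfold lim
  change A ∈ (Filter.bind (W : Filter ℕ) fun n => (((Y n).map (Nat.pair n) : Ultrafilter ℕ) :
    Filter ℕ)) ↔ _
  rw [Filter.mem_bind']
  rfl

theorem pair_inj {a b c d : ℕ} (h : Nat.pair a b = Nat.pair c d) : a = c ∧ b = d :=
  Nat.pair_eq_pair.1 h

theorem lim_free {W : Ultrafilter ℕ} {Y : ℕ → Ultrafilter ℕ} (hY : ∀ n, Free (Y n)) :
    Free (lim W Y) := by
  intro k hk
  rw [mem_lim] at hk
  obtain ⟨n, hn⟩ := Ultrafilter.nonempty_of_mem hk
  have h1 := (hY n).infinite hn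
  apply h1
  refine Set.Subsingleton.finite ?_
  intro a ha b hb
  simp only [mem_singleton_iff, mem_setOf_eq] at ha hb
  exact (pair_inj (ha.trans hb.symm)).2

/-- The sum of free ultrafilters is never selective. -/
theorem lim_not_selective {W : Ultrafilter ℕ} {Y : ℕ → Ultrafilter ℕ} (hW : Free W)
    (hY : ∀ n, Free (Y n)) : ¬ Selective (lim W Y) := by
  rintro ⟨-, h⟩
  rcases h (fun k => (Nat.unpair k).1) with ⟨X, hX, c, hc⟩ | ⟨X, hX, hinj⟩
  · rw [mem_lim] at hX
    have h1 := (hW.infinite hX).exists_gt c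
    obtain ⟨n, hn, hcn⟩ := h1
    obtain ⟨m, hm⟩ := ((hY n).infinite hn).nonempty
    have := hc _ hm
    simp only [Nat.unpair_pair] at this
    omega
  · rw [mem_lim] at hX
    obtain ⟨n, hn⟩ := Ultrafilter.nonempty_of_mem hX
    apply (hY n).infinite hn
    refine Set.Subsingleton.finite ?_
    intro a ha b hb
    have := hinj ha hb (by simp only [Nat.unpair_pair])
    exact (pair_inj this).2

/-- Pairwise distinct p-points can be separated simultaneously. -/
theorem exists_disjoint {g : ℕ → Ultrafilter ℕ} (hg : ∀ n, PPoint (g n))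
    (hne : ∀ n m, n ≠ m → g n ≠ g m) :
    ∃ Y : ℕ → Set ℕ, (∀ n, Y n ∈ g n) ∧ ∀ n m, n ≠ m → Disjoint (Y n) (Y m) := by
  classical
  have h1 : ∀ n m, ∃ Z : Set ℕ, Z ∈ g n ∧ (n ≠ m → Z ∉ g m) := by
    intro n m
    by_cases h : n = m
    · exact ⟨univ, univ_mem, fun h' => absurd h h'⟩
    · by_contra hcon
      push Not at hcon
      apply hne n m h
      apply Ultrafilter.coe_injective
      apply le_antisymm
      · intro Z hZ
        by_contra hZ2
        have h3 := (hcon Zᶜ (Ultrafilter.compl_mem_iff_notMem.2 hZ2)).2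
        exact (Ultrafilter.compl_mem_iff_notMem.1 h3) hZ
      · intro Z hZ
        exact (hcon Z hZ).2
  choose Z hZ1 hZ2 using h1
  have h2 : ∀ n, ∃ P ∈ g n, ∀ m, n ≠ m → P ∉ g m := by
    intro n
    obtain ⟨P, hP, hP2⟩ := (hg n).2 (Z n) (hZ1 n)
    exact ⟨P, hP, fun m hnm hPm => hZ2 n m hnm ((hg m).1.of_diff hPm (hP2 m))⟩
  choose P hP1 hP2 using h2
  refine ⟨fun n => P n \ ⋃ k ∈ {k | k < n}, P k, fun n => ?_, fun n m hnm => ?_⟩
  · have h3 : (⋂ k ∈ {k | k < n}, (P k)ᶜ) ∈ g n := by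
      refine (Filter.biInter_mem (finite_lt_nat n)).2 (fun k hk => ?_)
      simp only [mem_setOf_eq] at hk
      exact Ultrafilter.compl_mem_iff_notMem.2 (hP2 k n (by omega))
    refine Filter.mem_of_superset (inter_mem (hP1 n) h3) ?_
    rintro a ⟨ha, hb⟩
    refine ⟨ha, ?_⟩
    simp only [mem_iUnion, not_exists]
    intro k hk hk2
    simp only [mem_iInter] at hb
    exact hb k hk hk2
  · rw [Set.disjoint_left]
    rintro a ⟨ha1, ha2⟩ ⟨hb1, hb2⟩
    simp only [mem_iUnion, not_exists, mem_setOf_eq] at ha2 hb2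
    rcases lt_or_gt_of_ne hnm with h | h
    · exact hb2 n h ha1
    · exact ha2 m h hb1

/-- The image of a p-point under a finite-to-one function is a p-point. -/
theorem PPoint.map {V : Ultrafilter ℕ} (hV : PPoint V) {f : ℕ → ℕ}
    (hf : ∀ m : ℕ, {n : ℕ | f n = m}.Finite) : PPoint (V.map f) := by
  refine ⟨fun n hn => ?_, fun A hA => ?_⟩
  · rw [Ultrafilter.mem_map] at hn
    exact hV.1.infinite hn (hf n)
  · obtain ⟨X, hX, hX2⟩ := hV.2 (fun n => f ⁻¹' (A n)) (fun n => hA n)
    refine ⟨f '' X, ?_, fun n => ?_⟩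
    · rw [Ultrafilter.mem_map]
      exact Filter.mem_of_superset hX (subset_preimage_image f X)
    · refine ((hX2 n).image f).subset ?_
      rintro _ ⟨⟨a, ha, rfl⟩, hb⟩
      exact ⟨a, ⟨ha, hb⟩, rfl⟩

/-- A selective ultrafilter is a q-point. -/
theorem Selective.qpoint {V : Ultrafilter ℕ} (h : Selective V) : QPoint V := by
  refine ⟨h.1, fun f hf => ?_⟩
  rcases h.2 f with ⟨X, hX, c, hc⟩ | h
  · exact absurd ((hf c).subset hc) (h.1.infinite hX)
  · exact h

/-- The sum of pairwise non-isomorphic selective ultrafilters is a q-point, whatever the index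
ultrafilter is. -/
theorem lim_qpoint {W : Ultrafilter ℕ} {e : ℕ → Ultrafilter ℕ}
    (he : ∀ n, PPoint (e n) ∧ Selective (e n))
    (hne : ∀ n m, n ≠ m → ∀ f : ℕ → ℕ, (e n).map f ≠ e m) : QPoint (lim W e) := by
  classical
  refine ⟨lim_free (fun n => (he n).1.1), fun f hf => ?_⟩
  have hfn : ∀ n m, {k : ℕ | f (Nat.pair n k) = m}.Finite := by
    intro n m
    refine (((hf m).preimage (f := Nat.pair n) ?_)).subset (fun k hk => hk)
    intro a _ b _ hab
    exact (pair_inj hab).2
  have h1 : ∀ n, ∃ X ∈ e n, InjOn (fun k => f (Nat.pair n k)) X := fun n =>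
    (he n).2.qpoint.2 _ (hfn n)
  choose X hX hXinj using h1
  obtain ⟨Y, hY1, hY2⟩ := exists_disjoint
    (g := fun n => (e n).map (fun k => f (Nat.pair n k)))
    (fun n => (he n).1.map (hfn n)) (by
      intro n m hnm h
      -- a left inverse of the second function
      let s : ℕ → ℕ := fun b => if h : ∃ a ∈ X m, f (Nat.pair m a) = b then h.choose else 0
      have hs : ∀ a ∈ X m, s (f (Nat.pair m a)) = a := by
        intro a ha
        have hex : ∃ a' ∈ X m, f (Nat.pair m a') = f (Nat.pair m a) := ⟨a, ha, rfl⟩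
        have h2 : s (f (Nat.pair m a)) = hex.choose := dif_pos hex
        rw [h2]
        exact hXinj m hex.choose_spec.1 ha hex.choose_spec.2
      apply hne n m hnm (fun k => s (f (Nat.pair n k)))
      have h3 : ((e n).map (fun k => f (Nat.pair n k))).map s = e m := by
        rw [h, Ultrafilter.map_map]
        apply Ultrafilter.coe_injective
        change Filter.map (s ∘ fun k => f (Nat.pair m k)) (e m : Filter ℕ) = (e m : Filter ℕ)
        have h4 : (s ∘ fun k => f (Nat.pair m k)) =ᶠ[(e m : Filter ℕ)] id := by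
          filter_upwards [hX m] with a ha
          exact hs a ha
        rw [Filter.map_congr h4, Filter.map_id]
      rw [Ultrafilter.map_map] at h3
      exact h3)
  refine ⟨{a | ∃ n k, a = Nat.pair n k ∧ k ∈ X n ∧ f (Nat.pair n k) ∈ Y n}, ?_, ?_⟩
  · rw [mem_lim]
    refine Filter.mem_of_superset Filter.univ_mem (fun n _ => ?_)
    have h2 : X n ∩ (fun k => f (Nat.pair n k)) ⁻¹' (Y n) ∈ e n := inter_mem (hX n) (hY1 n)
    refine Filter.mem_of_superset h2 ?_
    rintro k ⟨hk1, hk2⟩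
    exact ⟨n, k, rfl, hk1, hk2⟩
  · rintro _ ⟨n, k, rfl, hk1, hk2⟩ _ ⟨n', k', rfl, hk1', hk2'⟩ heq
    have hnn : n = n' := by
      by_contra hnn
      have := Set.disjoint_left.1 (hY2 n n' hnn) hk2
      rw [heq] at this
      exact this hk2'
    subst hnn
    rw [hXinj n hk1 hk1' heq]

end Run7.h488.Sel
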